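import Pool.Agent.Q116.FF.V6
import Pool.Agent.Q116.FF.Cnv

/-!
# Quadruple covers by six even subgraphs of dense graphs

Jaeger's conjecture for all bridgeless graphs (loops and parallel edges allowed) in which any seven
vertices contain two adjacent ones, or with `n ≥ 648` vertices each of which has more than
`n/18 - 1` neighbours, or with eight vertices meeting all edges other than loops, or with at most
sixteen vertices of odd degree.

Proof.  Let `G` be such a graph.  Contract circuits of length at most four as long as there are
any; the quotient `H` has no circuits of length at most four, and nowhere-zero 4-flows of `H` lift to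
`G` (files `Q116/FF/Lift`, `Red`).  In each of the four cases all quotients of `G` of this kind have
at most sixteen vertices of odd degree (for seven vertices: the graphs of girth at least five with
small independence number; for the degrees: a class with at most `n/18` vertices has large degree in
`H`, and `H` has girth at least five; for the covers: two vertices outside the cover have at most one
common neighbour).  By the theorem of the starting files on graphs with at most sixteen vertices of
odd degree (`TH362.TF.main16`) `H`, hence `G`, has a nowhere-zero 4-flow or a Petersen quotient.  The
class is closed under quotients; so in the second case for each of the ten classes of the Petersen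
quotient the graph which arises by contracting the complement of the class has a quadruple cover by
induction.  It uses three edges which leave the class.  The symmetric group of degree six acts
transitively on the ordered triples of 4-subsets with sum zero, so the ten covers and the cover of
the Petersen graph fit together.
-/

set_option autoImplicit false

open Finset

namespace Pool.Agent.Results.MP_40718a_co.DenseGraphs

/-- Let `G` be a finite graph with loops and parallel edges allowed, given by the two ends `s e` and
`t e` of each edge `e`. Assume that no set of vertices is left by exactly one edge (no bridges), and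
that (a) any seven vertices contain two different adjacent ones, or (b) the number `n` of vertices
is at least 648 and `n < 18 (d + 1)` for the number `d` of neighbours of each vertex, or (c) there
are eight vertices such that each edge which is not a loop has an end among them, or (d) at most
sixteen vertices have odd degree. Then there are six even subgraphs such that each edge lies in
exactly four of them. -/
theorem result (V E : Type) [Fintype V] [DecidableEq V] [Fintype E] [DecidableEq E] (s t : E → V)
    (hbridge : ∀ Z : Finset V, (univ.filter fun e => ¬ (s e ∈ Z ↔ t e ∈ Z)).card ≠ 1)
    (h : (∀ I : Finset V, 7 ≤ I.card → ∃ e, s e ∈ I ∧ t e ∈ I ∧ s e ≠ t e) ∨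
      (648 ≤ Fintype.card V ∧ ∀ v, Fintype.card V < 18 * ((univ.filter (fun u => u ≠ v ∧
        ∃ e, (s e = v ∧ t e = u) ∨ (s e = u ∧ t e = v))).card + 1)) ∨
      (∃ C : Finset V, C.card ≤ 8 ∧ ∀ e, s e ≠ t e → s e ∈ C ∨ t e ∈ C) ∨
      (univ.filter (fun v => Odd ((univ.filter (fun e => s e = v)).card +
        (univ.filter (fun e => t e = v)).card))).card ≤ 16) :
    ∃ C : Fin 6 → Finset E,
      (∀ i v, Even (((C i).filter (fun e => s e = v)).card +
        ((C i).filter (fun e => t e = v)).card)) ∧
      ∀ e, (univ.filter (fun i => e ∈ C i)).card = 4 := by
  obtain ⟨φ, h1, h2⟩ := Q116.FF.wf6 (Q116.FF.dd_conv (Q116.FF.n1_conv hbridge) h)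
  have h01 : ∀ a : ZMod 2, (if a = 1 then (1 : ZMod 2) else 0) = a := by decide
  have hne : ∀ a : ZMod 2, a = 1 ↔ ¬ a = 0 := by decide
  refine ⟨fun i => univ.filter (fun e => φ e i = 1), fun i v => ?_, fun e => ?_⟩
  · have h3 := congrFun (h2 v) i
    unfold Q116.FF.ex at h3
    rw [Finset.sum_apply] at h3
    have key : ∀ r : E → V, ((((univ.filter (fun e => φ e i = 1)).filter (fun e => r e = v)).card :
        ℕ) : ZMod 2) = ∑ e, (if r e = v then φ e else 0) i := by
      intro r
      rw [filter_filter, card_filter, Nat.cast_sum]
      refine sum_congr rfl fun e _ => ?_
      by_cases h4 : r e = v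
      · by_cases h5 : φ e i = 1
        · rw [if_pos ⟨h5, h4⟩, if_pos h4, h5]; simp
        · rw [if_neg (fun h => h5 h.1), if_pos h4]
          have : φ e i = 0 := by
            by_contra hc
            exact h5 ((hne _).2 hc)
          rw [this]; simp
      · rw [if_neg (fun h => h4 h.2), if_neg h4]; simp
    rw [← ZMod.natCast_eq_zero_iff_even, Nat.cast_add, key, key]
    have h4 : ∀ a b : ZMod 2, b - a = 0 → a + b = 0 := by decide
    apply h4
    rw [← sum_sub_distrib]
    exact h3
  · have h3 : Q116.FF.wt (φ e) = 4 := h1 e (mem_univ e)
    rw [← h3]
    unfold Q116.FF.wt
    rw [card_filter]
    refine sum_congr rfl fun i _ => ?_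
    simp only [mem_filter, mem_univ, true_and]
    by_cases h5 : φ e i = 0
    · rw [if_neg (by rw [h5]; decide), if_pos h5]
    · rw [if_pos ((hne _).2 h5), if_neg h5]

end Pool.Agent.Results.MP_40718a_co.DenseGraphs
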