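import Pool.Agent.Q163.FL.W6

/-!
# Quadruple covers by six even subgraphs of graphs with domination number at most three

Jaeger's conjecture for all bridgeless graphs (loops and parallel edges allowed) with domination
number at most three; more generally for the bridgeless graphs with a set of at most three vertices
to which each vertex is joined by a path all of whose edges, except possibly the first one, lie in
circuits of length at most four.

Proof.  Contract circuits of length at most four and edges at vertices of degree two as long as
there are any (files `Q116/FF/Lift`, `Red`, `Q163/FL/Dom4`); nowhere-zero 4-flows of the quotient `H`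
lift.  `H` has girth at least five, minimum degree at least three (apart from isolated vertices) and
is dominated by a set `D` of at most three vertices.  It follows that `D` has three vertices, is
independent, that each other vertex has degree three, and that the graph outside of `D` consists of
circuits whose vertices are dominated by the three vertices of `D` in cyclic order, with at most one
further vertex which is adjacent to all of `D`.  If each vertex of `D` has at most four such private
neighbours then `H` has at most sixteen vertices of odd degree and the theorem of the starting files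
(`TH362.TF.main16`) applies; otherwise the circuits can be coloured so that `H` has a nowhere-zero
4-flow (`Q163/FL/Comb`, `Dom2`, `Dom3`).  The class is closed under quotients, so the induction over
nested Petersen quotients (`Q116/FF/Wf`, here `Q163/FL/Tr`) gives the covers.
-/

set_option autoImplicit false

open Finset

namespace Pool.Agent.Results.MP_40718a_co.DominatedByThree

/-- The edge `e` joins `x` and `y`. -/
def Joins {V E : Type} (s t : E → V) (x y : V) (e : E) : Prop :=
  (s e = x ∧ t e = y) ∨ (s e = y ∧ t e = x)

/-- `x` and `y` are different and joined by an edge which lies in a circuit of length two, three or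
four. -/
def Short {V E : Type} (s t : E → V) (x y : V) : Prop :=
  x ≠ y ∧ ∃ e, Joins s t x y e ∧
    ((∃ e', e' ≠ e ∧ Joins s t x y e') ∨
      (∃ z, z ≠ x ∧ z ≠ y ∧ (∃ e', Joins s t y z e') ∧ ∃ e', Joins s t z x e') ∨
      ∃ z w, z ≠ x ∧ z ≠ y ∧ w ≠ x ∧ w ≠ y ∧ z ≠ w ∧ (∃ e', Joins s t y z e') ∧
        (∃ e', Joins s t z w e') ∧ ∃ e', Joins s t w x e')

/-- There is a walk from `x` to `y` all of whose edges lie in circuits of length two, three or four
(no edge is needed if `x = y`). -/
def ShortLinked {V E : Type} (s t : E → V) : V → V → Prop := Relation.ReflTransGen (Short s t)

/-- There is a set `R` of at most three vertices such that each vertex `v` which is an end of an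
edge other than a loop is joined to a vertex of `R` by a walk all of whose edges, except possibly
the edge at `v`, lie in circuits of length two, three or four. (If each vertex outside of `R` has a
neighbour in `R`, no walk with more than one edge is needed.) -/
def DominatedByThree {V E : Type} (s t : E → V) : Prop :=
  ∃ R : Finset V, R.card ≤ 3 ∧ ∀ v, (∃ e, s e ≠ t e ∧ (s e = v ∨ t e = v)) →
    ∃ r ∈ R, ∃ d, ShortLinked s t r d ∧ (v = d ∨ ∃ e, Joins s t v d e)

theorem domT {V E : Type} [Fintype V] [DecidableEq V] [Fintype E] [DecidableEq E] {s t : E → V}
    (h : DominatedByThree s t) : Pool.Agent.Q163.FL.DomT s t := h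

/-- Let `G` be a finite graph with loops and parallel edges allowed, given by the two ends `s e` and
`t e` of each edge `e`. Assume that no set of vertices is left by exactly one edge (no bridges), and
that `G` has a set of at most three vertices to which each vertex that is not isolated is joined by
a walk all of whose edges, except possibly the one at this vertex, lie in circuits of length at most
four. Then there are six even subgraphs such that each edge lies in exactly four of them. -/
theorem result (V E : Type) [Fintype V] [DecidableEq V] [Fintype E] [DecidableEq E] (s t : E → V)
    (hbridge : ∀ Z : Finset V, (univ.filter fun e => ¬ (s e ∈ Z ↔ t e ∈ Z)).card ≠ 1)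
    (h : DominatedByThree s t) :
    ∃ C : Fin 6 → Finset E,
      (∀ i v, Even (((C i).filter (fun e => s e = v)).card +
        ((C i).filter (fun e => t e = v)).card)) ∧
      ∀ e, (univ.filter (fun i => e ∈ C i)).card = 4 := by
  obtain ⟨φ, h1, h2⟩ := Pool.Agent.Q163.FL.wf6
    (Pool.Agent.Q163.FL.dq_of_domT (Q116.FF.n1_conv hbridge) (domT h))
  have h01 : ∀ a : ZMod 2, (if a = 1 then (1 : ZMod 2) else 0) = a := by decide
  have hne : ∀ a : ZMod 2, a = 1 ↔ ¬ a = 0 := by decide
  refine ⟨fun i => univ.filter (fun e => φ e i = 1), fun i v => ?_, fun e => ?_⟩
  · have h3 := congrFun (h2 v) i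
    unfold Q116.FF.ex at h3
    rw [Finset.sum_apply] at h3
    have key : ∀ r : E → V, ((((univ.filter (fun e => φ e i = 1)).filter (fun e => r e = v)).card :
        ℕ) : ZMod 2) = ∑ e, (if r e = v then φ e else 0) i := by
      intro r
      rw [filter_filter, card_filter, Nat.cast_sum]
      refine sum_congr rfl fun e _ => ?_
      by_cases h4 : r e = v
      · by_cases h5 : φ e i = 1
        · rw [if_pos ⟨h5, h4⟩, if_pos h4, h5]; simp
        · rw [if_neg (fun h => h5 h.1), if_pos h4]
          have : φ e i = 0 := by
            by_contra hc
            exact h5 ((hne _).2 hc)
          rw [this]; simp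
      · rw [if_neg (fun h => h4 h.2), if_neg h4]; simp
    rw [← ZMod.natCast_eq_zero_iff_even, Nat.cast_add, key, key]
    have h4 : ∀ a b : ZMod 2, b - a = 0 → a + b = 0 := by decide
    apply h4
    rw [← sum_sub_distrib]
    exact h3
  · have h3 : Q116.FF.wt (φ e) = 4 := h1 e (mem_univ e)
    rw [← h3]
    unfold Q116.FF.wt
    rw [card_filter]
    refine sum_congr rfl fun i _ => ?_
    simp only [mem_filter, mem_univ, true_and]
    by_cases h5 : φ e i = 0
    · rw [if_neg (by rw [h5]; decide), if_pos h5]
    · rw [if_pos ((hne _).2 h5), if_neg h5]

end Pool.Agent.Results.MP_40718a_co.DominatedByThree
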