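import Pool.Agent.Q116.FF.V6
import Pool.Agent.Q116.FF.Cnv
import Pool.Agent.Q116.MM.Mat

/-!
# Quadruple covers by six even subgraphs of graphs without nine independent edges

Jaeger's conjecture for all bridgeless graphs (loops and parallel edges allowed) whose matching
number is at most eight. The number of vertices, the degrees and the width are not bounded.

Proof.  Let `G` be such a graph.  Contract circuits of length at most four as long as there are any.
In the quotient `H` the matching number is still at most eight, `H` has no bridges and no circuits of
length at most four.  By the theorem of Tutte and Berge there are a set `A` of `a ≤ 8` vertices and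
many odd sets of vertices which are joined only to `A`.  A parity argument shows that at least
`a + 2` of them consist of vertices of odd degree if `H` has more than sixteen vertices of odd
degree; such a set is left by at least three edges and is large, or a vertex with three neighbours in
`A`, and two such vertices have at most one common neighbour; a count gives a contradiction for each
`a` (file `Q116/MM/Cnt`).  So all quotients of this kind have at most sixteen vertices of odd degree,
and the theorem of the starting files on such graphs (`TH362.TF.main16`: a nowhere-zero 4-flow or a
Petersen quotient) together with the induction over nested Petersen quotients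
(`Q116/FF/Wf`, `V6`) applies.
-/

set_option autoImplicit false

open Finset

namespace Pool.Agent.Results.MP_40718a_co.MatchingNumberEight

/-- Let `G` be a finite graph with loops and parallel edges allowed, given by the two ends `s e` and
`t e` of each edge `e`. Assume that no set of vertices is left by exactly one edge (no bridges), and
that among any nine edges other than loops there are two with a common end. Then there are six even
subgraphs such that each edge lies in exactly four of them. -/
theorem result (V E : Type) [Fintype V] [DecidableEq V] [Fintype E] [DecidableEq E] (s t : E → V)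
    (hbridge : ∀ Z : Finset V, (univ.filter fun e => ¬ (s e ∈ Z ↔ t e ∈ Z)).card ≠ 1)
    (h : ∀ e : Fin 9 → E, (∀ i, s (e i) ≠ t (e i)) →
      ∃ i j, i ≠ j ∧ (s (e i) = s (e j) ∨ s (e i) = t (e j) ∨ t (e i) = t (e j))) :
    ∃ C : Fin 6 → Finset E,
      (∀ i v, Even (((C i).filter (fun e => s e = v)).card +
        ((C i).filter (fun e => t e = v)).card)) ∧
      ∀ e, (univ.filter (fun i => e ∈ C i)).card = 4 := by
  obtain ⟨φ, h1, h2⟩ := Q116.FF.wf6 (Q116.MM.dd_of_matching (Q116.FF.n1_conv hbridge)
    (fun M _ hM => Q116.MM.small_of h M hM))
  have h01 : ∀ a : ZMod 2, (if a = 1 then (1 : ZMod 2) else 0) = a := by decide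
  have hne : ∀ a : ZMod 2, a = 1 ↔ ¬ a = 0 := by decide
  refine ⟨fun i => univ.filter (fun e => φ e i = 1), fun i v => ?_, fun e => ?_⟩
  · have h3 := congrFun (h2 v) i
    unfold Q116.FF.ex at h3
    rw [Finset.sum_apply] at h3
    have key : ∀ r : E → V, ((((univ.filter (fun e => φ e i = 1)).filter (fun e => r e = v)).card :
        ℕ) : ZMod 2) = ∑ e, (if r e = v then φ e else 0) i := by
      intro r
      rw [filter_filter, card_filter, Nat.cast_sum]
      refine sum_congr rfl fun e _ => ?_
      by_cases h4 : r e = v
      · by_cases h5 : φ e i = 1
        · rw [if_pos ⟨h5, h4⟩, if_pos h4, h5]; simp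
        · rw [if_neg (fun h => h5 h.1), if_pos h4]
          have : φ e i = 0 := by
            by_contra hc
            exact h5 ((hne _).2 hc)
          rw [this]; simp
      · rw [if_neg (fun h => h4 h.2), if_neg h4]; simp
    rw [← ZMod.natCast_eq_zero_iff_even, Nat.cast_add, key, key]
    have h4 : ∀ a b : ZMod 2, b - a = 0 → a + b = 0 := by decide
    apply h4
    rw [← sum_sub_distrib]
    exact h3
  · have h3 : Q116.FF.wt (φ e) = 4 := h1 e (mem_univ e)
    rw [← h3]
    unfold Q116.FF.wt
    rw [card_filter]
    refine sum_congr rfl fun i _ => ?_
    simp only [mem_filter, mem_univ, true_and]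
    by_cases h5 : φ e i = 0
    · rw [if_neg (by rw [h5]; decide), if_pos h5]
    · rw [if_pos ((hne _).2 h5), if_neg h5]

end Pool.Agent.Results.MP_40718a_co.MatchingNumberEight
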