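import Pool.Agent.Q116.FF.V6
import Pool.Agent.Q116.FF.Cnv
import Pool.Agent.Q114.TC.Dd

/-!
# Quadruple covers by six even subgraphs of graphs most of whose edges lie in short circuits

Jaeger's conjecture for all bridgeless graphs (loops and parallel edges allowed) in which at most 26
edges lie in no circuit of length at most four, or in which the edges in circuits of length at most
four form a spanning subgraph with at most 17 components, and for all bridgeless simple graphs with
`n ≥ 24` vertices and at least `C(n-17, 2) + 37` edges.

Proof.  In a quotient without circuits of length two, three and four the edges of short circuits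
are loops.  So the quotient has at most 26 edges that are not loops and therefore at most 16
vertices of odd degree, or at most 17 vertices; if the graph is simple and the quotient has `k ≥ 18`
vertices, then it has at most `k √(k-1) / 2` edges other than loops, and at most 36 if `k = 18` and
all degrees are odd, and the remaining edges lie inside the classes.  The theorem of the starting
files on graphs with at most sixteen vertices of odd degree (`TH362.TF.main16`) and the induction
over nested Petersen quotients (`Q116/FF/Wf`, `V6`) apply.
-/

set_option autoImplicit false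

open Finset

namespace Pool.Agent.Results.MP_40718a_co.ShortCircuits

/-- Let `G` be a finite graph with loops and parallel edges allowed, given by the two ends `s e` and
`t e` of each edge `e`. Assume that no set of vertices is left by exactly one edge (no bridges), and
that (a) at most 26 edges lie in no circuit of length at most four, or (b) there are at most 17
vertices such that each vertex is joined to one of them by a path all of whose edges lie in circuits
of length at most four, or (c) `G` is simple and has `n ≥ 24` vertices and at least
`C(n-17, 2) + 37` edges. Then there are six even subgraphs such that each edge lies in exactly four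
of them. -/
theorem result (V E : Type) [Fintype V] [DecidableEq V] [Fintype E] [DecidableEq E] (s t : E → V)
    (hbridge : ∀ Z : Finset V, (univ.filter fun e => ¬ (s e ∈ Z ↔ t e ∈ Z)).card ≠ 1)
    (h : {e | ¬ Q114.TC.InShortCircuit s t e}.ncard ≤ 26 ∨
      (∃ R : Finset V, R.card ≤ 17 ∧ ∀ v, ∃ r ∈ R, Q114.TC.ShortLinked s t r v) ∨
      ((∀ e, s e ≠ t e) ∧
        (∀ e e', (s e = s e' ∧ t e = t e') ∨ (s e = t e' ∧ t e = s e') → e = e') ∧
        24 ≤ Fintype.card V ∧ (Fintype.card V - 17).choose 2 + 37 ≤ Fintype.card E)) :
    ∃ C : Fin 6 → Finset E,
      (∀ i v, Even (((C i).filter (fun e => s e = v)).card +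
        ((C i).filter (fun e => t e = v)).card)) ∧
      ∀ e, (univ.filter (fun i => e ∈ C i)).card = 4 := by
  classical
  have hn1 := Q116.FF.n1_conv hbridge
  have hdd : Q116.FF.DD s t (univ : Finset E) := by
    rcases h with h | ⟨R, hR, h⟩ | ⟨hl, hp, hn, hE⟩
    · refine Q114.TC.dd_of_short (fun e => mem_univ e) hn1
        (univ.filter (fun e => ¬ Q114.TC.InShortCircuit s t e)) ?_ (fun e he => ?_)
      · rw [← Set.ncard_coe_finset]
        refine le_trans (le_of_eq ?_) h
        congr 1
        ext e; simp
      · by_contra hc
        exact he (mem_filter.2 ⟨mem_univ _, hc⟩)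
    · exact Q114.TC.dd_of_parts (fun e => mem_univ e) hn1 R hR h
    · exact Q114.TC.dd_of_size hn1 hl hp hn (by rw [card_univ]; exact hE)
  obtain ⟨φ, h1, h2⟩ := Q116.FF.wf6 hdd
  have h01 : ∀ a : ZMod 2, (if a = 1 then (1 : ZMod 2) else 0) = a := by decide
  have hne : ∀ a : ZMod 2, a = 1 ↔ ¬ a = 0 := by decide
  refine ⟨fun i => univ.filter (fun e => φ e i = 1), fun i v => ?_, fun e => ?_⟩
  · have h3 := congrFun (h2 v) i
    unfold Q116.FF.ex at h3
    rw [Finset.sum_apply] at h3
    have key : ∀ r : E → V, ((((univ.filter (fun e => φ e i = 1)).filter (fun e => r e = v)).card :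
        ℕ) : ZMod 2) = ∑ e, (if r e = v then φ e else 0) i := by
      intro r
      rw [filter_filter, card_filter, Nat.cast_sum]
      refine sum_congr rfl fun e _ => ?_
      by_cases h4 : r e = v
      · by_cases h5 : φ e i = 1
        · rw [if_pos ⟨h5, h4⟩, if_pos h4, h5]; simp
        · rw [if_neg (fun h => h5 h.1), if_pos h4]
          have : φ e i = 0 := by
            by_contra hc
            exact h5 ((hne _).2 hc)
          rw [this]; simp
      · rw [if_neg (fun h => h4 h.2), if_neg h4]; simp
    rw [← ZMod.natCast_eq_zero_iff_even, Nat.cast_add, key, key]
    have h4 : ∀ a b : ZMod 2, b - a = 0 → a + b = 0 := by decide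
    apply h4
    rw [← sum_sub_distrib]
    exact h3
  · have h3 : Q116.FF.wt (φ e) = 4 := h1 e (mem_univ e)
    rw [← h3]
    unfold Q116.FF.wt
    rw [card_filter]
    refine sum_congr rfl fun i _ => ?_
    simp only [mem_filter, mem_univ, true_and]
    by_cases h5 : φ e i = 0
    · rw [if_neg (by rw [h5]; decide), if_pos h5]
    · rw [if_pos ((hne _).2 h5), if_neg h5]

end Pool.Agent.Results.MP_40718a_co.ShortCircuits
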